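import Pool.Agent.helper29.RS.SpecK
import Pool.Agent.helper62.QU.CA1

open scoped MatrixGroups ContDiff Topology UpperHalfPlane ComplexConjugate
open UpperHalfPlane MeasureTheory Filter Set

namespace Pool.Agent.RS

/-! ### Calculus on the half-plane -/

lemma INA_pxxm {w : ℝ} {c : ℍ → ℂ} (hc : TB w c) (z : ℍ) : px (xm c) z = c z + xm (px c) z := by
  have hd : DifferentiableAt ℝ (QU.onC c) (z : ℂ) := by
    apply QU.CA1_diff
    exact (QU.CA1 ℂ).2.1 c 1 ∞ (by exact_mod_cast le_top) hc.1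
  have h1 : HasFDerivAt (fun w : ℂ => ((w.re : ℝ) : ℂ)) (Complex.ofRealCLM.comp Complex.reCLM) (z : ℂ) :=
    (Complex.ofRealCLM.comp Complex.reCLM).hasFDerivAt
  have h2 := h1.mul hd.hasFDerivAt
  have h3 : QU.onC (xm c) =ᶠ[𝓝 (z : ℂ)] (fun w : ℂ => ((w.re : ℝ) : ℂ)) * QU.onC c := by
    filter_upwards [QU.CA1_open.mem_nhds (QU.CA1_mem z)] with w hw
    show ((((ofComplex w : ℍ)).re : ℝ) : ℂ) * c (ofComplex w) = ((w.re : ℝ) : ℂ) * c (ofComplex w)
    have h4 : ((ofComplex w : ℍ)).re = w.re := by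
      rw [← UpperHalfPlane.coe_re, QU.CA1_coe hw]
    rw [h4]
  have h5 : fderiv ℝ (QU.onC (xm c)) (z : ℂ) = _ := h3.fderiv_eq.trans h2.fderiv
  unfold px
  rw [h5]
  simp only [_root_.add_apply, smul_apply, ContinuousLinearMap.comp_apply, Complex.reCLM_apply,
    Complex.ofRealCLM_apply, Complex.one_re, Complex.ofReal_one, smul_eq_mul, mul_one]
  rw [QU.CA1_val]
  unfold xm
  rw [UpperHalfPlane.coe_re]
  show _ = c z + ((z.re : ℝ) : ℂ) * fderiv ℝ (QU.onC c) (z : ℂ) 1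
  ring

/-! ### Invariant functions -/

lemma INA_mul {Γ : Subgroup SL(2, ℝ)} {u v : SL(2, ℝ) → ℂ} (hu : InvG Γ u) (hv : InvG Γ v) :
    InvG Γ (fun g => u g * v g) :=
  ⟨hu.1.mul hv.1, fun γ g => by simp only [hu.2 γ g, hv.2 γ g]⟩

lemma INA_add {Γ : Subgroup SL(2, ℝ)} {u v : SL(2, ℝ) → ℂ} (hu : InvG Γ u) (hv : InvG Γ v) :
    InvG Γ (fun g => u g + v g) :=
  ⟨hu.1.add hv.1, fun γ g => by simp only [hu.2 γ g, hv.2 γ g]⟩

lemma INA_cmul {Γ : Subgroup SL(2, ℝ)} {u : SL(2, ℝ) → ℂ} (a : ℂ) (hu : InvG Γ u) :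
    InvG Γ (fun g => a * u g) :=
  ⟨continuous_const.mul hu.1, fun γ g => by simp only [hu.2 γ g]⟩

lemma INA_neg {Γ : Subgroup SL(2, ℝ)} {u : SL(2, ℝ) → ℂ} (hu : InvG Γ u) :
    InvG Γ (fun g => -u g) :=
  ⟨hu.1.neg, fun γ g => by simp only [hu.2 γ g]⟩

lemma INA_sub {Γ : Subgroup SL(2, ℝ)} {u v : SL(2, ℝ) → ℂ} (hu : InvG Γ u) (hv : InvG Γ v) :
    InvG Γ (fun g => u g - v g) :=
  ⟨hu.1.sub hv.1, fun γ g => by simp only [hu.2 γ g, hv.2 γ g]⟩

lemma INA_conj {Γ : Subgroup SL(2, ℝ)} {u : SL(2, ℝ) → ℂ} (hu : InvG Γ u) :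
    InvG Γ (fun g => conj (u g)) :=
  ⟨Complex.continuous_conj.comp hu.1, fun γ g => by simp only [hu.2 γ g]⟩

lemma INA_real {Γ : Subgroup SL(2, ℝ)} {u : SL(2, ℝ) → ℝ} (hu : InvG Γ u) :
    InvG Γ (fun g => ((u g : ℝ) : ℂ)) :=
  ⟨Complex.continuous_ofReal.comp hu.1, fun γ g => by simp only [hu.2 γ g]⟩

lemma INA_dconj {f : ℝ → ℂ} {f' : ℂ} {t : ℝ} (h : HasDerivAt f f' t) :
    HasDerivAt (fun t => conj (f t)) (conj f') t :=
  (Complex.conjCLE : ℂ →L[ℝ] ℂ).hasFDerivAt.comp_hasDerivAt t h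

section INA_cs

variable {Γ : Subgroup SL(2, ℝ)} {F : Set ℍ}

lemma INA_int (hGFD : GFD_stmt) (hGBD : GBD_stmt) (hΓ : QU.SurfaceGroup Γ) (hF : QU.NiceDom Γ F)
    {u : SL(2, ℝ) → ℂ} (hu : InvG Γ u) : Integrable u (mG.restrict (dG F)) := by
  obtain ⟨m, hm⟩ := (hGBD Γ ℂ u hΓ hu).1
  have hfin : mG (dG F) < ⊤ := (hGFD Γ F hΓ hF).1.2.2.1
  have : IsFiniteMeasure (mG.restrict (dG F)) := ⟨by rwa [Measure.restrict_apply_univ]⟩
  exact Integrable.of_bound hu.1.aestronglyMeasurable m (Eventually.of_forall hm)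

lemma INA_intr (hGFD : GFD_stmt) (hGBD : GBD_stmt) (hΓ : QU.SurfaceGroup Γ) (hF : QU.NiceDom Γ F)
    {u : SL(2, ℝ) → ℝ} (hu : InvG Γ u) : Integrable u (mG.restrict (dG F)) := by
  obtain ⟨m, hm⟩ := (hGBD Γ ℝ u hΓ hu).1
  have hfin : mG (dG F) < ⊤ := (hGFD Γ F hΓ hF).1.2.2.1
  have : IsFiniteMeasure (mG.restrict (dG F)) := ⟨by rwa [Measure.restrict_apply_univ]⟩
  exact Integrable.of_bound hu.1.aestronglyMeasurable m (Eventually.of_forall hm)

lemma INA_norm {u : SL(2, ℝ) → ℂ} (hu : InvG Γ u) : InvG Γ (fun g => ‖u g‖) :=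
  ⟨hu.1.norm, fun γ g => by simp only [hu.2 γ g]⟩

lemma INA_rmul {u v : SL(2, ℝ) → ℝ} (hu : InvG Γ u) (hv : InvG Γ v) :
    InvG Γ (fun g => u g * v g) :=
  ⟨hu.1.mul hv.1, fun γ g => by simp only [hu.2 γ g, hv.2 γ g]⟩

/-- Cauchy-Schwarz -/
lemma INA_cs (hGFD : GFD_stmt) (hGBD : GBD_stmt) (hΓ : QU.SurfaceGroup Γ) (hF : QU.NiceDom Γ F)
    {Ψ : SL(2, ℝ) → ℝ} {f h : SL(2, ℝ) → ℂ} {B : ℝ} (hΨ : InvG Γ Ψ) (hB : ∀ g, |Ψ g| ≤ B)
    (hf : InvG Γ f) (hh : InvG Γ h) :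
    ‖iG F (fun g => ((Ψ g : ℝ) : ℂ) * (f g * conj (h g)))‖ ≤
      B * (Real.sqrt (iR F (fun g => ‖f g‖ ^ 2)) * Real.sqrt (iR F (fun g => ‖h g‖ ^ 2))) := by
  have hB0 : 0 ≤ B := (abs_nonneg _).trans (hB 1)
  unfold iG iR
  have i1 := INA_intr hGFD hGBD hΓ hF (INA_rmul (INA_norm hf) (INA_norm hf))
  have i2 := INA_intr hGFD hGBD hΓ hF (INA_rmul (INA_norm hh) (INA_norm hh))
  have i3 := INA_intr hGFD hGBD hΓ hF (INA_rmul (INA_norm hf) (INA_norm hh))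
  set a := ∫ g in dG F, ‖f g‖ ^ 2 ∂mG with ha
  set b := ∫ g in dG F, ‖h g‖ ^ 2 ∂mG with hb
  set m := ∫ g in dG F, ‖f g‖ * ‖h g‖ ∂mG with hm
  have ha' : a = ∫ g in dG F, ‖f g‖ * ‖f g‖ ∂mG := by
    rw [ha]
    simp only [sq]
  have hb' : b = ∫ g in dG F, ‖h g‖ * ‖h g‖ ∂mG := by
    rw [hb]
    simp only [sq]
  have ha0 : 0 ≤ a := integral_nonneg (fun _ => by positivity)
  have hb0 : 0 ≤ b := integral_nonneg (fun _ => by positivity)
  have hm0 : 0 ≤ m := integral_nonneg (fun _ => by positivity)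
  have hq : ∀ t : ℝ, 0 ≤ b * (t * t) + (2 * m) * t + a := by
    intro t
    have e1 : ∫ g in dG F, (‖f g‖ + t * ‖h g‖) * (‖f g‖ + t * ‖h g‖) ∂mG =
        b * (t * t) + (2 * m) * t + a := by
      have e2 : (fun g => (‖f g‖ + t * ‖h g‖) * (‖f g‖ + t * ‖h g‖)) =
          fun g => ((t * t) * (‖h g‖ * ‖h g‖) + (2 * t) * (‖f g‖ * ‖h g‖)) + ‖f g‖ * ‖f g‖ := by
        funext g
        ring
      rw [e2]
      have e3 := integral_add ((i2.const_mul (t * t)).add (i3.const_mul (2 * t))) i1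
      have e4 := integral_add (i2.const_mul (t * t)) (i3.const_mul (2 * t))
      simp only [Pi.add_apply] at e3
      rw [e3, e4, integral_const_mul, integral_const_mul, ← ha', ← hb', ← hm]
      ring
    rw [← e1]
    exact integral_nonneg (fun _ => mul_self_nonneg _)
  have hdisc := discrim_le_zero hq
  have hm2 : m ≤ Real.sqrt a * Real.sqrt b := by
    rw [← Real.sqrt_mul ha0]
    apply Real.le_sqrt_of_sq_le
    unfold discrim at hdisc
    nlinarith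
  calc ‖∫ g in dG F, ((Ψ g : ℝ) : ℂ) * (f g * conj (h g)) ∂mG‖
      ≤ ∫ g in dG F, ‖((Ψ g : ℝ) : ℂ) * (f g * conj (h g))‖ ∂mG := norm_integral_le_integral_norm _
    _ ≤ ∫ g in dG F, B * (‖f g‖ * ‖h g‖) ∂mG := by
        apply integral_mono
        · exact (INA_int hGFD hGBD hΓ hF (INA_mul (INA_real hΨ) (INA_mul hf (INA_conj hh)))).norm
        · exact i3.const_mul B
        · intro g
          show ‖((Ψ g : ℝ) : ℂ) * (f g * conj (h g))‖ ≤ B * (‖f g‖ * ‖h g‖)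
          rw [norm_mul, norm_mul, Complex.norm_real, RCLike.norm_conj, Real.norm_eq_abs]
          exact mul_le_mul_of_nonneg_right (hB g) (by positivity)
    _ = B * m := integral_const_mul _ _
    _ ≤ B * (Real.sqrt a * Real.sqrt b) := mul_le_mul_of_nonneg_left hm2 hB0

end INA_cs

/-- linearity in the packet -/
lemma INA_lin {r : ℝ} {c c' φ : ℍ → ℂ} (h1 : Continuous (pk r c)) (h2 : HasCompactSupport (pk r c))
    (h3 : Continuous (pk r c')) (h4 : HasCompactSupport (pk r c')) (hφ : Continuous φ) (g : SL(2, ℝ)) :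
    Wf (pk r (fun z => c z + c' z)) φ g = Wf (pk r c) φ g + Wf (pk r c') φ g := by
  unfold Wf
  have hc : Continuous (fun z : ℍ => φ (g • z)) := hφ.comp (continuous_const_smul g)
  have i1 : Integrable (fun z : ℍ => pk r c z * φ (g • z)) :=
    (h1.mul hc).integrable_of_hasCompactSupport h2.mul_right
  have i2 : Integrable (fun z : ℍ => pk r c' z * φ (g • z)) :=
    (h3.mul hc).integrable_of_hasCompactSupport h4.mul_right
  rw [← integral_add i1 i2]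
  apply integral_congr_ae
  refine Eventually.of_forall fun z => ?_
  simp only [pk]
  ring

/-! ### The pairing -/

/-- the integral of `Ψ f` over `Γ \ G` -/
noncomputable def INA_J (F : Set ℍ) (Ψ : SL(2, ℝ) → ℝ) (f : SL(2, ℝ) → ℂ) : ℂ :=
  iG F (fun g => ((Ψ g : ℝ) : ℂ) * f g)

section INA_Jl

variable {Γ : Subgroup SL(2, ℝ)} {F : Set ℍ} {Ψ : SL(2, ℝ) → ℝ}

lemma INA_Jadd (hGFD : GFD_stmt) (hGBD : GBD_stmt) (hΓ : QU.SurfaceGroup Γ) (hF : QU.NiceDom Γ F)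
    (hΨ : InvG Γ Ψ) {f h : SL(2, ℝ) → ℂ} (hf : InvG Γ f) (hh : InvG Γ h) :
    INA_J F Ψ (fun g => f g + h g) = INA_J F Ψ f + INA_J F Ψ h := by
  unfold INA_J iG
  rw [← integral_add (INA_int hGFD hGBD hΓ hF (INA_mul (INA_real hΨ) hf))
    (INA_int hGFD hGBD hΓ hF (INA_mul (INA_real hΨ) hh))]
  simp only [mul_add]

lemma INA_Jmul (a : ℂ) (f : SL(2, ℝ) → ℂ) :
    INA_J F Ψ (fun g => a * f g) = a * INA_J F Ψ f := by
  unfold INA_J iG
  rw [← integral_const_mul]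
  simp only [mul_left_comm]

lemma INA_Jneg (f : SL(2, ℝ) → ℂ) :
    INA_J F Ψ (fun g => -f g) = -INA_J F Ψ f := by
  unfold INA_J iG
  rw [← integral_neg]
  simp only [mul_neg]

lemma INA_Jconj (f : SL(2, ℝ) → ℂ) :
    INA_J F Ψ (fun g => conj (f g)) = conj (INA_J F Ψ f) := by
  unfold INA_J iG
  rw [← integral_conj]
  simp only [map_mul, Complex.conj_ofReal]

end INA_Jl

/-- the algebra -/
lemma INA_alg (r s : ℝ) (a0 X Y L Z N P1 P2 P3 A : ℂ) (hr : 1 ≤ r)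
    (h0 : conj a0 = a0)
    (h1 : A = a0 + (X + conj X) + (Y + conj Y))
    (h2 : (1 + 2 * (r : ℂ) * Complex.I) * Y = L + ((r ^ 2 - s ^ 2 : ℝ) : ℂ) * a0)
    (h3 : (1 + 2 * (r : ℂ) * Complex.I) * X + P3 = -(P1 + ((1 - 2 * (r : ℂ) * Complex.I) * Z + P2)))
    (h4 : Z = N - a0 - conj X) :
    ‖A‖ ≤ ‖N‖ + (2 * ‖Z‖ + ‖P1‖ + ‖P2‖ + ‖P3‖ + 2 * ‖L‖) / (2 * r) +
      2 * |r ^ 2 - s ^ 2| * ‖a0‖ / (1 + 4 * r ^ 2) := by
  set w : ℂ := 1 + 2 * (r : ℂ) * Complex.I with hw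
  have hwim : w.im = 2 * r := by
    simp [hw]
  have hwc : conj w = 1 - 2 * (r : ℂ) * Complex.I := by
    simp only [hw, map_add, map_mul, map_one, Complex.conj_I, Complex.conj_ofReal]
    have : conj (2 : ℂ) = 2 := Complex.conj_ofNat 2
    rw [this]
    ring
  have hwn : 2 * r ≤ ‖w‖ := by
    rw [← hwim]
    exact (le_abs_self _).trans (Complex.abs_im_le_norm w)
  have hw0 : w ≠ 0 := by
    intro h
    rw [h, norm_zero] at hwn
    linarith
  have hwc0 : conj w ≠ 0 := by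
    intro h
    apply hw0
    have := congrArg (starRingEnd ℂ) h
    simpa using this
  have hww : w * conj w = ((1 + 4 * r ^ 2 : ℝ) : ℂ) := by
    rw [hwc, hw]
    push_cast
    have : Complex.I ^ 2 = -1 := Complex.I_sq
    ring_nf
    rw [this]
    ring
  -- first part
  have e1 : a0 + (X + conj X) = N - (2 * Z + P1 + P2 + P3) / w := by
    have : X = Z - (2 * Z + P1 + P2 + P3) / w := by
      field_simp
      have h5 : (1 - 2 * (r : ℂ) * Complex.I) = 2 - w := by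
        rw [hw]
        ring
      rw [h5] at h3
      linear_combination h3
    linear_combination this + h4
  -- second part
  have hYe : Y = (L + ((r ^ 2 - s ^ 2 : ℝ) : ℂ) * a0) / w := by
    rw [← h2]
    field_simp
  have hYc : conj Y = (conj L + ((r ^ 2 - s ^ 2 : ℝ) : ℂ) * a0) / conj w := by
    rw [hYe, map_div₀, map_add, map_mul, Complex.conj_ofReal, h0]
  have hsum : w + conj w = 2 := by
    rw [hwc, hw]
    ring
  have e2 : Y + conj Y = L / w + conj L / conj w +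
      2 * (((r ^ 2 - s ^ 2 : ℝ) : ℂ) * a0) / ((1 + 4 * r ^ 2 : ℝ) : ℂ) := by
    rw [← hww, hYc, hYe]
    field_simp
    linear_combination (((r ^ 2 - s ^ 2 : ℝ) : ℂ) * a0) * hsum
  have e3 : A = N - (2 * Z + P1 + P2 + P3) / w + (L / w + conj L / conj w +
      2 * (((r ^ 2 - s ^ 2 : ℝ) : ℂ) * a0) / ((1 + 4 * r ^ 2 : ℝ) : ℂ)) := by
    rw [h1, e1, e2]
  have hr0 : (0 : ℝ) < 2 * r := by linarith
  have n1 : ‖(2 * Z + P1 + P2 + P3) / w‖ ≤ (2 * ‖Z‖ + ‖P1‖ + ‖P2‖ + ‖P3‖) / (2 * r) := by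
    rw [norm_div]
    have : ‖2 * Z + P1 + P2 + P3‖ ≤ 2 * ‖Z‖ + ‖P1‖ + ‖P2‖ + ‖P3‖ := by
      refine (norm_add_le _ _).trans (add_le_add ?_ le_rfl)
      refine (norm_add_le _ _).trans (add_le_add ?_ le_rfl)
      refine (norm_add_le _ _).trans (add_le_add ?_ le_rfl)
      rw [norm_mul, Complex.norm_ofNat]
    exact div_le_div₀ (by positivity) this hr0 hwn
  have n2 : ‖L / w‖ ≤ ‖L‖ / (2 * r) := by
    rw [norm_div]
    exact div_le_div₀ (norm_nonneg _) le_rfl hr0 hwn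
  have n3 : ‖conj L / conj w‖ ≤ ‖L‖ / (2 * r) := by
    rw [norm_div, RCLike.norm_conj, RCLike.norm_conj]
    exact div_le_div₀ (norm_nonneg _) le_rfl hr0 hwn
  have n4 : ‖2 * (((r ^ 2 - s ^ 2 : ℝ) : ℂ) * a0) / ((1 + 4 * r ^ 2 : ℝ) : ℂ)‖ =
      2 * |r ^ 2 - s ^ 2| * ‖a0‖ / (1 + 4 * r ^ 2) := by
    rw [norm_div, norm_mul, norm_mul, Complex.norm_real, Complex.norm_real, Complex.norm_ofNat,
      Real.norm_eq_abs, Real.norm_eq_abs, abs_of_pos (show (0 : ℝ) < 1 + 4 * r ^ 2 by positivity)]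
    ring
  rw [e3]
  refine (norm_add_le _ _).trans ?_
  have m1 := norm_sub_le N ((2 * Z + P1 + P2 + P3) / w)
  have m2 := norm_add_le (L / w + conj L / conj w)
    (2 * (((r ^ 2 - s ^ 2 : ℝ) : ℂ) * a0) / ((1 + 4 * r ^ 2 : ℝ) : ℂ))
  have m3 := norm_add_le (L / w) (conj L / conj w)
  have : (2 * ‖Z‖ + ‖P1‖ + ‖P2‖ + ‖P3‖ + 2 * ‖L‖) / (2 * r) =
      (2 * ‖Z‖ + ‖P1‖ + ‖P2‖ + ‖P3‖) / (2 * r) + ‖L‖ / (2 * r) + ‖L‖ / (2 * r) := by ring
  rw [this]
  linarith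

/-- the three integrations by parts, for abstract functions -/
lemma INA_core (hGLC : GLC_stmt) (hGFD : GFD_stmt) (hGBD : GBD_stmt) (hGIP : GIP_stmt)
    {Γ : Subgroup SL(2, ℝ)} {F : Set ℍ} (hΓ : QU.SurfaceGroup Γ) (hF : QU.NiceDom Γ F)
    {Ψ Ψa Ψn Ψl : SL(2, ℝ) → ℝ} (hΨ : InvG Γ Ψ) (hΨa : InvG Γ Ψa) (hΨn : InvG Γ Ψn) (hΨl : InvG Γ Ψl)
    (dA : ∀ g, HasDerivAt (fun t => Ψ (g * aM t)) (Ψa g) 0)
    (dN : ∀ g, HasDerivAt (fun t => Ψ (g * nM t)) (Ψn g) 0)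
    (dL : ∀ g, HasDerivAt (fun t => Ψ (g * lM t)) (Ψl g) 0)
    {W Wx Wp Wxp Wk Wkp Wl Wd : SL(2, ℝ) → ℂ} (r s : ℝ)
    (iW : InvG Γ W) (iWx : InvG Γ Wx) (iWp : InvG Γ Wp) (iWxp : InvG Γ Wxp) (iWk : InvG Γ Wk)
    (iWkp : InvG Γ Wkp) (iWl : InvG Γ Wl) (iWd : InvG Γ Wd)
    (eN : ∀ g, HasDerivAt (fun x : ℝ => W (g * nM x)) (-Wp g) 0)
    (eNx : ∀ g, HasDerivAt (fun x : ℝ => Wx (g * nM x)) (-(W g + Wxp g)) 0)
    (eA : ∀ g, HasDerivAt (fun t : ℝ => W (g * aM t))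
      (-((1 / 2 : ℂ) + (r : ℂ) * Complex.I) * W g - Wxp g - Wd g) 0)
    (eL : ∀ g, HasDerivAt (fun u : ℝ => W (g * lM u)) ((1 + 2 * (r : ℂ) * Complex.I) * Wx g + Wk g) 0)
    (eLp : ∀ g, HasDerivAt (fun u : ℝ => Wp (g * lM u)) ((1 + 2 * (r : ℂ) * Complex.I) * Wxp g + Wkp g) 0)
    (e4 : ∀ g, (1 + 2 * (r : ℂ) * Complex.I) * Wd g = Wl g + ((r ^ 2 - s ^ 2 : ℝ) : ℂ) * W g) :
    (conj (INA_J F Ψ (fun g => W g * conj (W g))) = INA_J F Ψ (fun g => W g * conj (W g))) ∧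
    (INA_J F Ψa (fun g => W g * conj (W g)) = INA_J F Ψ (fun g => W g * conj (W g)) +
      (INA_J F Ψ (fun g => Wxp g * conj (W g)) + conj (INA_J F Ψ (fun g => Wxp g * conj (W g)))) +
      (INA_J F Ψ (fun g => Wd g * conj (W g)) + conj (INA_J F Ψ (fun g => Wd g * conj (W g))))) ∧
    ((1 + 2 * (r : ℂ) * Complex.I) * INA_J F Ψ (fun g => Wd g * conj (W g)) =
      INA_J F Ψ (fun g => Wl g * conj (W g)) +
        ((r ^ 2 - s ^ 2 : ℝ) : ℂ) * INA_J F Ψ (fun g => W g * conj (W g))) ∧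
    ((1 + 2 * (r : ℂ) * Complex.I) * INA_J F Ψ (fun g => Wxp g * conj (W g)) +
      INA_J F Ψ (fun g => Wkp g * conj (W g)) =
      -(INA_J F Ψl (fun g => Wp g * conj (W g)) + ((1 - 2 * (r : ℂ) * Complex.I) *
        INA_J F Ψ (fun g => Wp g * conj (Wx g)) + INA_J F Ψ (fun g => Wp g * conj (Wk g))))) ∧
    (INA_J F Ψ (fun g => Wp g * conj (Wx g)) = INA_J F Ψn (fun g => W g * conj (Wx g)) -
      INA_J F Ψ (fun g => W g * conj (W g)) - conj (INA_J F Ψ (fun g => Wxp g * conj (W g)))) := by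
  obtain ⟨_, _, _, ca, cn, cl, _, _, _, _, aa, an, al, _⟩ := hGLC
  have h10 : aM 0 = 1 := by
    have := aa 0 0
    rw [add_zero] at this
    exact (mul_eq_left.mp this.symm)
  have h20 : nM 0 = 1 := by
    have := an 0 0
    rw [add_zero] at this
    exact (mul_eq_left.mp this.symm)
  have h30 : lM 0 = 1 := by
    have := al 0 0
    rw [add_zero] at this
    exact (mul_eq_left.mp this.symm)
  have hw2 : conj (2 : ℂ) = 2 := Complex.conj_ofNat 2
  have hwc : conj (1 + 2 * (r : ℂ) * Complex.I) = 1 - 2 * (r : ℂ) * Complex.I := by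
    simp only [map_add, map_mul, map_one, Complex.conj_I, Complex.conj_ofReal, hw2]
    ring
  have hhc : conj (-((1 / 2 : ℂ) + (r : ℂ) * Complex.I)) = -((1 / 2 : ℂ) - (r : ℂ) * Complex.I) := by
    simp only [map_neg, map_add, map_mul, map_div₀, map_one, Complex.conj_I, Complex.conj_ofReal, hw2]
    ring
  refine ⟨?_, ?_, ?_, ?_, ?_⟩
  · rw [← INA_Jconj]
    congr 1
    funext g
    rw [map_mul, Complex.conj_conj, mul_comm]
  · -- along the geodesic flow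
    have hV : InvG Γ (fun g => -((1 / 2 : ℂ) + (r : ℂ) * Complex.I) * W g - Wxp g - Wd g) :=
      INA_sub (INA_sub (INA_cmul _ iW) iWxp) iWd
    have key := hGIP Γ F aM (fun g => ((Ψ g : ℝ) : ℂ)) (fun g => ((Ψa g : ℝ) : ℂ))
      (fun g => W g * conj (W g))
      (fun g => (-((1 / 2 : ℂ) + (r : ℂ) * Complex.I) * W g - Wxp g - Wd g) * conj (W g) +
        W g * conj (-((1 / 2 : ℂ) + (r : ℂ) * Complex.I) * W g - Wxp g - Wd g))
      hΓ hF ca aa (INA_real hΨ) (INA_real hΨa) (INA_mul iW (INA_conj iW))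
      (INA_add (INA_mul hV (INA_conj iW)) (INA_mul iW (INA_conj hV)))
      (fun g => (dA g).ofReal_comp)
      (fun g => by
        have h := (eA g).mul (INA_dconj (eA g))
        simp only [h10, mul_one] at h
        exact h)
    have k1 : (fun g => (-((1 / 2 : ℂ) + (r : ℂ) * Complex.I) * W g - Wxp g - Wd g) * conj (W g) +
        W g * conj (-((1 / 2 : ℂ) + (r : ℂ) * Complex.I) * W g - Wxp g - Wd g)) =
        fun g => -((W g * conj (W g) + (Wxp g * conj (W g) + conj (Wxp g * conj (W g)))) +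
          (Wd g * conj (W g) + conj (Wd g * conj (W g)))) := by
      funext g
      rw [map_sub, map_sub, map_mul, hhc, map_mul, map_mul, Complex.conj_conj]
      ring
    have i0 := INA_mul iW (INA_conj iW)
    have i1 := INA_mul iWxp (INA_conj iW)
    have i2 := INA_mul iWd (INA_conj iW)
    have k2 : INA_J F Ψ (fun g => -((W g * conj (W g) + (Wxp g * conj (W g) + conj (Wxp g * conj (W g)))) +
          (Wd g * conj (W g) + conj (Wd g * conj (W g))))) =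
        -((INA_J F Ψ (fun g => W g * conj (W g)) +
        (INA_J F Ψ (fun g => Wxp g * conj (W g)) + conj (INA_J F Ψ (fun g => Wxp g * conj (W g))))) +
        (INA_J F Ψ (fun g => Wd g * conj (W g)) + conj (INA_J F Ψ (fun g => Wd g * conj (W g))))) := by
      rw [INA_Jneg, INA_Jadd hGFD hGBD hΓ hF hΨ (INA_add i0 (INA_add i1 (INA_conj i1)))
        (INA_add i2 (INA_conj i2)), INA_Jadd hGFD hGBD hΓ hF hΨ i0 (INA_add i1 (INA_conj i1)),
        INA_Jadd hGFD hGBD hΓ hF hΨ i1 (INA_conj i1), INA_Jadd hGFD hGBD hΓ hF hΨ i2 (INA_conj i2),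
        INA_Jconj, INA_Jconj]
    have k3 : INA_J F Ψa (fun g => W g * conj (W g)) =
        -INA_J F Ψ (fun g => -((W g * conj (W g) + (Wxp g * conj (W g) + conj (Wxp g * conj (W g)))) +
          (Wd g * conj (W g) + conj (Wd g * conj (W g))))) := by
      rw [← k1]
      exact key
    rw [k3, k2, neg_neg]
  · rw [← INA_Jmul, ← INA_Jmul, ← INA_Jadd hGFD hGBD hΓ hF hΨ (INA_mul iWl (INA_conj iW))
      (INA_cmul _ (INA_mul iW (INA_conj iW)))]
    congr 1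
    funext g
    rw [← mul_assoc, e4 g]
    ring
  · -- along the horocyclic flow `lM`
    have hu' : InvG Γ (fun g => (1 + 2 * (r : ℂ) * Complex.I) * Wxp g + Wkp g) :=
      INA_add (INA_cmul _ iWxp) iWkp
    have hv1 : InvG Γ (fun g => (1 + 2 * (r : ℂ) * Complex.I) * Wx g + Wk g) :=
      INA_add (INA_cmul _ iWx) iWk
    have key := hGIP Γ F lM Wp (fun g => (1 + 2 * (r : ℂ) * Complex.I) * Wxp g + Wkp g)
      (fun g => ((Ψ g : ℝ) : ℂ) * conj (W g))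
      (fun g => ((Ψl g : ℝ) : ℂ) * conj (W g) +
        ((Ψ g : ℝ) : ℂ) * conj ((1 + 2 * (r : ℂ) * Complex.I) * Wx g + Wk g))
      hΓ hF cl al iWp hu' (INA_mul (INA_real hΨ) (INA_conj iW))
      (INA_add (INA_mul (INA_real hΨl) (INA_conj iW)) (INA_mul (INA_real hΨ) (INA_conj hv1)))
      eLp
      (fun g => by
        have h := ((dL g).ofReal_comp).mul (INA_dconj (eL g))
        simp only [h30, mul_one] at h
        exact h)
    have j1 : ∫ g in dG F, ((1 + 2 * (r : ℂ) * Complex.I) * Wxp g + Wkp g) *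
        (((Ψ g : ℝ) : ℂ) * conj (W g)) ∂mG =
        (1 + 2 * (r : ℂ) * Complex.I) * INA_J F Ψ (fun g => Wxp g * conj (W g)) +
          INA_J F Ψ (fun g => Wkp g * conj (W g)) := by
      rw [← INA_Jmul, ← INA_Jadd hGFD hGBD hΓ hF hΨ (INA_cmul _ (INA_mul iWxp (INA_conj iW)))
        (INA_mul iWkp (INA_conj iW))]
      unfold INA_J iG
      congr 1
      funext g
      ring
    have j2 : ∫ g in dG F, Wp g * (((Ψl g : ℝ) : ℂ) * conj (W g) +
        ((Ψ g : ℝ) : ℂ) * conj ((1 + 2 * (r : ℂ) * Complex.I) * Wx g + Wk g)) ∂mG =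
        INA_J F Ψl (fun g => Wp g * conj (W g)) + ((1 - 2 * (r : ℂ) * Complex.I) *
        INA_J F Ψ (fun g => Wp g * conj (Wx g)) + INA_J F Ψ (fun g => Wp g * conj (Wk g))) := by
      rw [← INA_Jmul, ← INA_Jadd hGFD hGBD hΓ hF hΨ (INA_cmul _ (INA_mul iWp (INA_conj iWx)))
        (INA_mul iWp (INA_conj iWk))]
      unfold INA_J iG
      rw [← integral_add (INA_int hGFD hGBD hΓ hF (INA_mul (INA_real hΨl) (INA_mul iWp (INA_conj iW))))
        (INA_int hGFD hGBD hΓ hF (INA_mul (INA_real hΨ) (INA_add (INA_cmul _ (INA_mul iWp (INA_conj iWx)))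
        (INA_mul iWp (INA_conj iWk)))))]
      congr 1
      funext g
      rw [map_add, map_mul, hwc]
      ring
    rw [← j1, key, j2]
  · -- along the horocyclic flow `nM`
    have hv1 : InvG Γ (fun g => -(W g + Wxp g)) := INA_neg (INA_add iW iWxp)
    have key := hGIP Γ F nM W (fun g => -Wp g)
      (fun g => ((Ψ g : ℝ) : ℂ) * conj (Wx g))
      (fun g => ((Ψn g : ℝ) : ℂ) * conj (Wx g) + ((Ψ g : ℝ) : ℂ) * conj (-(W g + Wxp g)))
      hΓ hF cn an iW (INA_neg iWp) (INA_mul (INA_real hΨ) (INA_conj iWx))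
      (INA_add (INA_mul (INA_real hΨn) (INA_conj iWx)) (INA_mul (INA_real hΨ) (INA_conj hv1)))
      eN
      (fun g => by
        have h := ((dN g).ofReal_comp).mul (INA_dconj (eNx g))
        simp only [h20, mul_one] at h
        exact h)
    have j1 : ∫ g in dG F, (-Wp g) * (((Ψ g : ℝ) : ℂ) * conj (Wx g)) ∂mG =
        -INA_J F Ψ (fun g => Wp g * conj (Wx g)) := by
      rw [← INA_Jneg]
      unfold INA_J iG
      congr 1
      funext g
      ring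
    have j2 : ∫ g in dG F, W g * (((Ψn g : ℝ) : ℂ) * conj (Wx g) +
        ((Ψ g : ℝ) : ℂ) * conj (-(W g + Wxp g))) ∂mG =
        INA_J F Ψn (fun g => W g * conj (Wx g)) -
      INA_J F Ψ (fun g => W g * conj (W g)) - conj (INA_J F Ψ (fun g => Wxp g * conj (W g))) := by
      rw [← INA_Jconj, sub_sub, sub_eq_add_neg, ← INA_Jadd hGFD hGBD hΓ hF hΨ (INA_mul iW (INA_conj iW))
        (INA_conj (INA_mul iWxp (INA_conj iW))), ← INA_Jneg]
      unfold INA_J iG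
      rw [← integral_add (INA_int hGFD hGBD hΓ hF (INA_mul (INA_real hΨn) (INA_mul iW (INA_conj iWx))))
        (INA_int hGFD hGBD hΓ hF (INA_mul (INA_real hΨ) (INA_neg (INA_add (INA_mul iW (INA_conj iW))
        (INA_conj (INA_mul iWxp (INA_conj iW)))))))]
      congr 1
      funext g
      rw [map_neg, map_add, map_mul, Complex.conj_conj]
      ring
    have k := key
    rw [j1, j2] at k
    exact neg_injective k

theorem INA (hGLC : GLC_stmt) (hGFD : GFD_stmt) (hGBD : GBD_stmt) (hGIP : GIP_stmt) (hGWB : GWB_stmt)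
    (hFL0 : FL0_stmt) (hFL1 : FL1_stmt) (hFL2 : FL2_stmt) (hFL3 : FL3_stmt) (hFL4 : FL4_stmt) :
    INA_stmt := by
  intro Γ F c r s φ Ψ Ψa Ψn Ψl B0 Bn Bl hΓ hF hc _ hr hs hφ hΨ hΨa hΨn hΨl dA dN dL b0 bn bl
  have hφc : Continuous φ := ((QU.CA1 ℂ).1 φ).mp ((QU.CA1 ℂ).2.1 φ 0 2 (by norm_num) hφ.1)
  have hφC : InvC Γ φ := ⟨hφc, hφ.2.1⟩
  have cpk : ∀ c' : ℍ → ℂ, TB (1 / 4) c' → Continuous (pk r c') ∧ HasCompactSupport (pk r c') := by
    intro c' hc'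
    have h := hFL0.2.1 (1 / 4) r c' hc'
    exact ⟨((QU.CA1 ℂ).1 _).mp ((QU.CA1 ℂ).2.1 _ 0 ∞ (by simp) h.1), h.2⟩
  have iv : ∀ c' : ℍ → ℂ, TB (1 / 4) c' → InvG Γ (Wf (pk r c') φ) := fun c' hc' =>
    hFL0.2.2 Γ (pk r c') φ (cpk c' hc').1 (cpk c' hc').2 hφC
  obtain ⟨tp, tx, td, tk, tl, _, _⟩ := hFL0.1 (1 / 4) c hc
  obtain ⟨_, txp, _, tkp, _, _, _⟩ := hFL0.1 (1 / 4) (px c) tp
  have hpx : px (xm c) = fun z => c z + xm (px c) z := funext (INA_pxxm hc)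
  have hlin : ∀ g, Wf (pk r (px (xm c))) φ g = Wf (pk r c) φ g + Wf (pk r (xm (px c))) φ g := by
    intro g
    rw [hpx]
    exact INA_lin (cpk c hc).1 (cpk c hc).2 (cpk _ txp).1 (cpk _ txp).2 hφc g
  obtain ⟨q0, q1, q2, q3, q4⟩ := INA_core hGLC hGFD hGBD hGIP hΓ hF hΨ hΨa hΨn hΨl dA dN dL r s
    (iv c hc) (iv _ tx) (iv _ tp) (iv _ txp) (iv _ tk) (iv _ tkp) (iv _ tl) (iv _ td)
    (hFL1 r c φ hc hφc)
    (fun g => by
      have := hFL1 r (xm c) φ tx hφc g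
      rw [hlin g] at this
      exact this)
    (hFL2 r c φ hc hφc) (hFL3 r c φ hc hφc) (hFL3 r (px c) φ tp hφc)
    (fun g => by
      have := hFL4 Γ (1 / 4 + s ^ 2) r c φ hc hφ g
      rw [this]
      congr 2
      push_cast
      ring)
  have hmain := INA_alg r s _ _ _ _ _ _ _ _ _ _ hr q0 q1 q2 q3 q4
  have hB0 : 0 ≤ B0 := (abs_nonneg _).trans (b0 1)
  have hBn : 0 ≤ Bn := (abs_nonneg _).trans (bn 1)
  have hBl : 0 ≤ Bl := (abs_nonneg _).trans (bl 1)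
  have hqn : ∀ c' : ℍ → ℂ, 0 ≤ qn F c' r φ := fun c' => integral_nonneg (fun _ => by positivity)
  have cs : ∀ {Φ : SL(2, ℝ) → ℝ} {B : ℝ} {c1 c2 : ℍ → ℂ}, InvG Γ Φ → (∀ g, |Φ g| ≤ B) → TB (1 / 4) c1 →
      TB (1 / 4) c2 → ‖INA_J F Φ (fun g => Wf (pk r c1) φ g * conj (Wf (pk r c2) φ g))‖ ≤
        B * (Real.sqrt (qn F c1 r φ) * Real.sqrt (qn F c2 r φ)) := by
    intro Φ B c1 c2 hΦ hB h1 h2
    exact INA_cs hGFD hGBD hΓ hF hΦ hB (iv c1 h1) (iv c2 h2)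
  have hA : INA_J F Ψa (fun g => Wf (pk r c) φ g * conj (Wf (pk r c) φ g)) =
      ((iR F (fun g => Ψa g * ‖Wf (pk r c) φ g‖ ^ 2) : ℝ) : ℂ) := by
    unfold INA_J iG iR
    rw [← integral_complex_ofReal]
    congr 1
    funext g
    show ((Ψa g : ℝ) : ℂ) * (Wf (pk r c) φ g * conj (Wf (pk r c) φ g)) = _
    rw [Complex.mul_conj, Complex.normSq_eq_norm_sq]
    push_cast
    ring
  rw [hA, Complex.norm_real, Real.norm_eq_abs] at hmain
  refine hmain.trans ?_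
  have amgm : ∀ x y : ℝ, 0 ≤ x → 0 ≤ y → Real.sqrt x * Real.sqrt y ≤ x + y := by
    intro x y hx hy
    have h1 := Real.mul_self_sqrt hx
    have h2 := Real.mul_self_sqrt hy
    nlinarith [mul_self_nonneg (Real.sqrt x - Real.sqrt y), Real.sqrt_nonneg x, Real.sqrt_nonneg y,
      mul_nonneg (Real.sqrt_nonneg x) (Real.sqrt_nonneg y)]
  have z1 := hqn c
  have z2 := hqn (xm c)
  have z3 := hqn (px c)
  have z4 := hqn (xm (px c))
  have z5 := hqn (kW c)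
  have z6 := hqn (kW (px c))
  have z7 := hqn (QU.lap c)
  have hS : qS F c r φ = qn F c r φ + qn F (xm c) r φ + qn F (px c) r φ + qn F (xm (px c)) r φ +
    qn F (kW c) r φ + qn F (kW (px c)) r φ + qn F (QU.lap c) r φ := rfl
  have hS0 : 0 ≤ qS F c r φ := by
    rw [hS]
    positivity
  set S := qS F c r φ with hSdef
  have nN := cs hΨn bn hc tx
  have nZ : ‖INA_J F Ψ (fun g => Wf (pk r (px c)) φ g * conj (Wf (pk r (xm c)) φ g))‖ ≤ B0 * S := by
    refine (cs hΨ b0 tp tx).trans (mul_le_mul_of_nonneg_left ((amgm _ _ z3 z2).trans ?_) hB0)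
    rw [hS]
    linarith
  have nP1 : ‖INA_J F Ψl (fun g => Wf (pk r (px c)) φ g * conj (Wf (pk r c) φ g))‖ ≤ Bl * S := by
    refine (cs hΨl bl tp hc).trans (mul_le_mul_of_nonneg_left ((amgm _ _ z3 z1).trans ?_) hBl)
    rw [hS]
    linarith
  have nP2 : ‖INA_J F Ψ (fun g => Wf (pk r (px c)) φ g * conj (Wf (pk r (kW c)) φ g))‖ ≤ B0 * S := by
    refine (cs hΨ b0 tp tk).trans (mul_le_mul_of_nonneg_left ((amgm _ _ z3 z5).trans ?_) hB0)
    rw [hS]
    linarith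
  have nP3 : ‖INA_J F Ψ (fun g => Wf (pk r (kW (px c))) φ g * conj (Wf (pk r c) φ g))‖ ≤ B0 * S := by
    refine (cs hΨ b0 tkp hc).trans (mul_le_mul_of_nonneg_left ((amgm _ _ z6 z1).trans ?_) hB0)
    rw [hS]
    linarith
  have nL : ‖INA_J F Ψ (fun g => Wf (pk r (QU.lap c)) φ g * conj (Wf (pk r c) φ g))‖ ≤ B0 * S := by
    refine (cs hΨ b0 tl hc).trans (mul_le_mul_of_nonneg_left ((amgm _ _ z7 z1).trans ?_) hB0)
    rw [hS]
    linarith
  have n0 : ‖INA_J F Ψ (fun g => Wf (pk r c) φ g * conj (Wf (pk r c) φ g))‖ ≤ B0 * S := by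
    refine (cs hΨ b0 hc hc).trans (mul_le_mul_of_nonneg_left ?_ hB0)
    rw [Real.mul_self_sqrt z1, hS]
    linarith
  have hr0 : 0 < r := by linarith
  have hsr : |r ^ 2 - s ^ 2| ≤ 3 * r := by
    have h1 : r ^ 2 - s ^ 2 = -((s - r) * (s + r)) := by ring
    rw [h1, abs_neg, abs_mul]
    have h2 : |s + r| ≤ 3 * r := by
      rw [abs_le] at hs ⊢
      constructor
      · linarith [hs.1]
      · linarith [hs.2]
    calc |s - r| * |s + r| ≤ 1 * (3 * r) := mul_le_mul hs h2 (abs_nonneg _) zero_le_one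
      _ = 3 * r := one_mul _
  have t1 : (2 * ‖INA_J F Ψ (fun g => Wf (pk r (px c)) φ g * conj (Wf (pk r (xm c)) φ g))‖ +
      ‖INA_J F Ψl (fun g => Wf (pk r (px c)) φ g * conj (Wf (pk r c) φ g))‖ +
      ‖INA_J F Ψ (fun g => Wf (pk r (px c)) φ g * conj (Wf (pk r (kW c)) φ g))‖ +
      ‖INA_J F Ψ (fun g => Wf (pk r (kW (px c))) φ g * conj (Wf (pk r c) φ g))‖ +
      2 * ‖INA_J F Ψ (fun g => Wf (pk r (QU.lap c)) φ g * conj (Wf (pk r c) φ g))‖) / (2 * r) ≤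
      6 / r * (B0 + Bl) * S := by
    have h1 : 6 / r * (B0 + Bl) * S = (12 * ((B0 + Bl) * S)) / (2 * r) := by
      field_simp
      ring
    rw [h1]
    apply div_le_div_of_nonneg_right _ (by positivity)
    have h2 : 0 ≤ Bl * S := mul_nonneg hBl hS0
    have h3 : 0 ≤ B0 * S := mul_nonneg hB0 hS0
    have h4 : (B0 + Bl) * S = B0 * S + Bl * S := by ring
    rw [h4]
    linarith
  have t2 : 2 * |r ^ 2 - s ^ 2| * ‖INA_J F Ψ (fun g => Wf (pk r c) φ g * conj (Wf (pk r c) φ g))‖ /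
      (1 + 4 * r ^ 2) ≤ 6 / r * (B0 + Bl) * S := by
    have h3 : 0 ≤ B0 * S := mul_nonneg hB0 hS0
    have h2 : 0 ≤ Bl * S := mul_nonneg hBl hS0
    rw [div_le_iff₀ (by positivity)]
    calc 2 * |r ^ 2 - s ^ 2| * ‖INA_J F Ψ (fun g => Wf (pk r c) φ g * conj (Wf (pk r c) φ g))‖
        ≤ 2 * (3 * r) * (B0 * S) := by
          apply mul_le_mul _ n0 (norm_nonneg _) (by positivity)
          exact mul_le_mul_of_nonneg_left hsr (by norm_num)
      _ ≤ 2 * (3 * r) * ((B0 + Bl) * S) := by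
          apply mul_le_mul_of_nonneg_left _ (by positivity)
          have : (B0 + Bl) * S = B0 * S + Bl * S := by ring
          rw [this]
          linarith
      _ ≤ 6 / r * (B0 + Bl) * S * (1 + 4 * r ^ 2) := by
          have h5 : 6 / r * (B0 + Bl) * S * (1 + 4 * r ^ 2) =
              ((B0 + Bl) * S) * (6 / r + 24 * r) := by
            field_simp
            ring
          rw [h5]
          have h6 : 0 ≤ (B0 + Bl) * S := mul_nonneg (by positivity) hS0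
          have h7 : 2 * (3 * r) ≤ 6 / r + 24 * r := by
            have : 0 ≤ 6 / r := by positivity
            linarith
          calc 2 * (3 * r) * ((B0 + Bl) * S) = ((B0 + Bl) * S) * (2 * (3 * r)) := by ring
            _ ≤ _ := mul_le_mul_of_nonneg_left h7 h6
  have h8 : 0 ≤ 1 / r * (B0 + Bl) * S := by positivity
  have h9 : 20 / r * (B0 + Bl) * S = 20 * (1 / r * (B0 + Bl) * S) := by ring
  have h10 : 6 / r * (B0 + Bl) * S = 6 * (1 / r * (B0 + Bl) * S) := by ring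
  rw [h9]
  rw [h10] at t1 t2
  linarith

end Pool.Agent.RS
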