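import Pool.Agent.helper62.RS.SpecT

open MeasureTheory Filter Set

namespace Pool.Agent.RS

section TH2_aux

variable {X : Type} [MeasurableSpace X]

lemma TH2_bm_mul {w a : X → ℂ} (hw : BM w) (ha : BM a) : BM (fun x => w x * a x) := by
  obtain ⟨h1, m1, h2⟩ := hw
  obtain ⟨h3, m2, h4⟩ := ha
  refine ⟨h1.mul h3, m1 * m2, fun x => ?_⟩
  rw [norm_mul]
  exact mul_le_mul (h2 x) (h4 x) (norm_nonneg _) ((norm_nonneg _).trans (h2 x))

lemma TH2_bm_conj {a : X → ℂ} (ha : BM a) : BM (fun x => (starRingEnd ℂ) (a x)) := by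
  obtain ⟨h3, m2, h4⟩ := ha
  refine ⟨Complex.continuous_conj.measurable.comp h3, m2, fun x => ?_⟩
  rw [RCLike.norm_conj]
  exact h4 x

lemma TH2_bm_const (c : ℂ) : BM (fun _ : X => c) := ⟨measurable_const, ‖c‖, fun _ => le_refl _⟩

lemma TH2_bm_re {Φ : X → ℝ} (h : BM Φ) : BM (fun x => ((Φ x : ℝ) : ℂ)) := by
  obtain ⟨h3, m2, h4⟩ := h
  refine ⟨Complex.continuous_ofReal.measurable.comp h3, m2, fun x => ?_⟩
  rw [Complex.norm_real]
  exact h4 x

lemma TH2_bm_exp {Φ : X → ℝ} (h : BM Φ) (ζ : ℂ) : BM (fun x => Complex.exp (ζ * Φ x)) := by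
  obtain ⟨h3, m2, h4⟩ := TH2_bm_re h
  refine ⟨Complex.continuous_exp.measurable.comp (h3.const_mul ζ), Real.exp (‖ζ‖ * m2), fun x => ?_⟩
  rw [Complex.norm_exp]
  apply Real.exp_le_exp.mpr
  calc (ζ * Φ x).re ≤ ‖ζ * Φ x‖ := Complex.re_le_norm _
    _ = ‖ζ‖ * ‖((Φ x : ℝ) : ℂ)‖ := norm_mul _ _
    _ ≤ ‖ζ‖ * m2 := mul_le_mul_of_nonneg_left (h4 x) (norm_nonneg _)

variable {μ : Measure X} [IsFiniteMeasure μ] {K : X → X → ℂ} {k₀ : ℝ}

lemma TH2_int1 (hK : Measurable (Function.uncurry K)) (hb : ∀ x y, ‖K x y‖ ≤ k₀)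
    {u v : X → ℂ} (hu : BM u) (hv : BM v) (x : X) :
    Integrable (fun y => u x * K x y * v y) μ := by
  obtain ⟨h1, m1, h2⟩ := hu
  obtain ⟨h3, m2, h4⟩ := hv
  have hKx : Measurable (fun y => K x y) := hK.comp (measurable_const.prodMk measurable_id)
  refine Integrable.of_bound ((measurable_const.mul hKx).mul h3).aestronglyMeasurable (m1 * k₀ * m2)
    (Eventually.of_forall fun y => ?_)
  rw [norm_mul, norm_mul]
  have hm1 : 0 ≤ m1 := (norm_nonneg _).trans (h2 x)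
  have hk : 0 ≤ k₀ := (norm_nonneg _).trans (hb x x)
  exact mul_le_mul (mul_le_mul (h2 x) (hb x y) (norm_nonneg _) hm1) (h4 y) (norm_nonneg _)
    (mul_nonneg hm1 hk)

lemma TH2_int2 (hK : Measurable (Function.uncurry K)) (hb : ∀ x y, ‖K x y‖ ≤ k₀)
    {u v : X → ℂ} (hu : BM u) (hv : BM v) :
    Integrable (fun x => ∫ y, u x * K x y * v y ∂μ) μ := by
  obtain ⟨h1, m1, h2⟩ := hu
  obtain ⟨h3, m2, h4⟩ := hv
  have hm : Measurable (fun z : X × X => u z.1 * K z.1 z.2 * v z.2) :=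
    ((h1.comp measurable_fst).mul hK).mul (h3.comp measurable_snd)
  have hs : StronglyMeasurable (fun x => ∫ y, u x * K x y * v y ∂μ) :=
    hm.stronglyMeasurable.integral_prod_right (ν := μ)
  refine Integrable.of_bound hs.aestronglyMeasurable ((m1 * k₀ * m2) * μ.real Set.univ)
    (Eventually.of_forall fun x => ?_)
  apply norm_integral_le_of_norm_le_const
  refine Eventually.of_forall fun y => ?_
  rw [norm_mul, norm_mul]
  have hm1 : 0 ≤ m1 := (norm_nonneg _).trans (h2 x)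
  have hk : 0 ≤ k₀ := (norm_nonneg _).trans (hb x x)
  exact mul_le_mul (mul_le_mul (h2 x) (hb x y) (norm_nonneg _) hm1) (h4 y) (norm_nonneg _)
    (mul_nonneg hm1 hk)

lemma TH2_add (hK : Measurable (Function.uncurry K)) (hb : ∀ x y, ‖K x y‖ ≤ k₀)
    {u v u' v' : X → ℂ} (hu : BM u) (hv : BM v) (hu' : BM u') (hv' : BM v') :
    ∫ x, ∫ y, (u x * K x y * v y + u' x * K x y * v' y) ∂μ ∂μ =
      ∫ x, ∫ y, u x * K x y * v y ∂μ ∂μ + ∫ x, ∫ y, u' x * K x y * v' y ∂μ ∂μ := by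
  rw [← integral_add (TH2_int2 hK hb hu hv) (TH2_int2 hK hb hu' hv')]
  apply integral_congr_ae
  refine Eventually.of_forall fun x => ?_
  exact integral_add (TH2_int1 hK hb hu hv x) (TH2_int1 hK hb hu' hv' x)

lemma TH2_add3 (hK : Measurable (Function.uncurry K)) (hb : ∀ x y, ‖K x y‖ ≤ k₀)
    {u v u' v' u'' v'' : X → ℂ} (hu : BM u) (hv : BM v) (hu' : BM u') (hv' : BM v')
    (hu'' : BM u'') (hv'' : BM v'') :
    ∫ x, ∫ y, (u x * K x y * v y + u' x * K x y * v' y + u'' x * K x y * v'' y) ∂μ ∂μ =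
      ∫ x, ∫ y, u x * K x y * v y ∂μ ∂μ + ∫ x, ∫ y, u' x * K x y * v' y ∂μ ∂μ +
        ∫ x, ∫ y, u'' x * K x y * v'' y ∂μ ∂μ := by
  have e1 := integral_add (μ := μ) (TH2_int2 (μ := μ) hK hb hu hv) (TH2_int2 (μ := μ) hK hb hu' hv')
  have e2 := integral_add (μ := μ) ((TH2_int2 (μ := μ) hK hb hu hv).add (TH2_int2 (μ := μ) hK hb hu' hv'))
    (TH2_int2 (μ := μ) hK hb hu'' hv'')
  simp only [Pi.add_apply] at e2
  rw [← e1, ← e2]
  apply integral_congr_ae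
  refine Eventually.of_forall fun x => ?_
  have h1 := integral_add (μ := μ) (TH2_int1 hK hb hu hv x) (TH2_int1 hK hb hu' hv' x)
  have h2 := integral_add (μ := μ) ((TH2_int1 (μ := μ) hK hb hu hv x).add (TH2_int1 hK hb hu' hv' x))
    (TH2_int1 hK hb hu'' hv'' x)
  simp only [Pi.add_apply] at h2 ⊢
  rw [h2, h1]

omit [IsFiniteMeasure μ] in
lemma TH2_sq {N : ℕ} {a : Fin N → X → ℂ} {A : Fin N → ℝ} {κ : ℝ}
    (h : ∀ i j, ∫ x, a i x * (starRingEnd ℂ) (a j x) ∂μ = if i = j then ((κ * A j : ℝ) : ℂ) else 0)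
    (j : Fin N) : ∫ x, ‖a j x‖ ^ 2 ∂μ = κ * A j := by
  have h1 := h j j
  rw [if_pos rfl] at h1
  have h2 : ∫ x, a j x * (starRingEnd ℂ) (a j x) ∂μ = ∫ x, ((‖a j x‖ ^ 2 : ℝ) : ℂ) ∂μ := by
    apply integral_congr_ae
    refine Eventually.of_forall fun x => ?_
    simp only [Complex.mul_conj, Complex.normSq_eq_norm_sq]
  rw [h2, integral_complex_ofReal] at h1
  exact_mod_cast h1

lemma TH2_sqint {a : X → ℂ} (ha : BM a) : Integrable (fun x => ‖a x‖ ^ 2) μ := by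
  obtain ⟨h3, m2, h4⟩ := ha
  refine Integrable.of_bound ((h3.norm.pow_const 2).aestronglyMeasurable) (m2 ^ 2)
    (Eventually.of_forall fun x => ?_)
  rw [norm_pow, norm_norm]
  exact pow_le_pow_left₀ (norm_nonneg _) (h4 x) 2

lemma TH2_sqle {a w : X → ℂ} (ha : BM a) (hw : BM w) {c : ℝ} (hc : 0 ≤ c) (hwc : ∀ x, ‖w x‖ ≤ c)
    {t : ℝ} (ht : ∫ x, ‖a x‖ ^ 2 ∂μ = t) :
    Real.sqrt (∫ x, ‖w x * a x‖ ^ 2 ∂μ) ≤ c * Real.sqrt t := by
  have h1 : ∫ x, ‖w x * a x‖ ^ 2 ∂μ ≤ c ^ 2 * t := by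
    rw [← ht, ← integral_const_mul]
    apply integral_mono (TH2_sqint (TH2_bm_mul hw ha)) ((TH2_sqint ha).const_mul _)
    intro x
    show ‖w x * a x‖ ^ 2 ≤ c ^ 2 * ‖a x‖ ^ 2
    rw [norm_mul, mul_pow]
    exact mul_le_mul_of_nonneg_right (pow_le_pow_left₀ (norm_nonneg _) (hwc x) 2) (by positivity)
  refine (Real.sqrt_le_sqrt h1).trans ?_
  rw [Real.sqrt_mul (by positivity), Real.sqrt_sq hc]

lemma TH2_bound {N : ℕ} {a b : Fin N → X → ℂ} {A : Fin N → ℝ} {κ : ℝ}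
    (h : TD μ N K a b A κ k₀) (j : Fin N) {w w' : X → ℂ} (hw : BM w) (hw' : BM w') {c c' : ℝ}
    (hc : 0 ≤ c) (hc' : 0 ≤ c') (hwc : ∀ x, ‖w x‖ ≤ c) (hwc' : ∀ x, ‖w' x‖ ≤ c') :
    ‖∫ x, ∫ y, (w x * (starRingEnd ℂ) (a j x)) * K x y * (w' y * b j y) ∂μ ∂μ‖ ≤ κ ^ 2 * (c * c') := by
  have h1 := h.op (fun x => w x * (starRingEnd ℂ) (a j x)) (fun y => w' y * b j y)
    (TH2_bm_mul hw (TH2_bm_conj (h.bma j))) (TH2_bm_mul hw' (h.bmb j))
  refine h1.trans ?_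
  have h2 : ∫ x, ‖(starRingEnd ℂ) (a j x)‖ ^ 2 ∂μ = κ * A j := by
    rw [← TH2_sq h.ortha j]
    simp only [RCLike.norm_conj]
  have h3 := TH2_sqle (μ := μ) (TH2_bm_conj (h.bma j)) hw hc hwc h2
  have h4 := TH2_sqle (μ := μ) (h.bmb j) hw' hc' hwc' (TH2_sq h.orthb j)
  have hκ := h.posκ
  have hA := h.nonneg j
  have hA1 := h.le_one j
  calc κ * Real.sqrt (∫ x, ‖w x * (starRingEnd ℂ) (a j x)‖ ^ 2 ∂μ) *
        Real.sqrt (∫ x, ‖w' x * b j x‖ ^ 2 ∂μ)
      ≤ κ * (c * Real.sqrt (κ * A j)) * (c' * Real.sqrt (κ * A j)) := by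
        apply mul_le_mul _ h4 (Real.sqrt_nonneg _)
          (mul_nonneg hκ.le (mul_nonneg hc (Real.sqrt_nonneg _)))
        exact mul_le_mul_of_nonneg_left h3 hκ.le
    _ = κ * (c * c') * (Real.sqrt (κ * A j) * Real.sqrt (κ * A j)) := by ring
    _ = κ * (c * c') * (κ * A j) := by rw [Real.mul_self_sqrt (mul_nonneg hκ.le hA)]
    _ = κ ^ 2 * (c * c') * A j := by ring
    _ ≤ κ ^ 2 * (c * c') := mul_le_of_le_one_right (by positivity) hA1

end TH2_aux

theorem TH2 : TH2_stmt := by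
  intro X _ μ _ N K a b A κ k₀ Φ L F1 F2 h hΦ hL hF1 hF2
  have hκ := h.posκ
  have hΦc := TH2_bm_re hΦ
  refine ⟨?_, ?_, ?_, ?_⟩
  · intro ζ hζ
    have hn : ∀ x, ‖Complex.exp (ζ * Φ x)‖ ≤ 1 := by
      intro x
      rw [Complex.norm_exp]
      simp [hζ]
    unfold TF
    refine (norm_sum_le _ _).trans ?_
    have hj : ∀ j ∈ (Finset.univ : Finset (Fin N)),
        ‖∫ x, ∫ y, (Complex.exp (ζ * Φ x) * (starRingEnd ℂ) (a j x)) * K x y *
          (Complex.exp (ζ * Φ y) * b j y) ∂μ ∂μ‖ ≤ κ ^ 2 := by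
      intro j _
      have := TH2_bound h j (TH2_bm_exp hΦ ζ) (TH2_bm_exp hΦ ζ) zero_le_one zero_le_one hn hn
      rw [mul_one, mul_one] at this
      exact this
    refine (Finset.sum_le_sum hj).trans (le_of_eq ?_)
    rw [Finset.sum_const, Finset.card_univ, Fintype.card_fin, nsmul_eq_mul]
  · unfold TF
    rw [Finset.mul_sum]
    push_cast
    apply Finset.sum_congr rfl
    intro j _
    have h1 := h.actb j (fun x => (starRingEnd ℂ) (a j x)) (TH2_bm_conj (h.bma j))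
    have h2 := h.ortha j j
    rw [if_pos rfl] at h2
    have h3 : ∫ x, (starRingEnd ℂ) (a j x) * a j x ∂μ = ((κ * A j : ℝ) : ℂ) := by
      rw [← h2]
      apply integral_congr_ae
      exact Eventually.of_forall fun x => mul_comm _ _
    rw [h3] at h1
    simp only [zero_mul, Complex.exp_zero, one_mul]
    rw [h1]
    push_cast
    ring
  · rw [hF1, Finset.mul_sum]
    push_cast
    apply Finset.sum_congr rfl
    intro j _
    have hu := TH2_bm_mul hΦc (TH2_bm_conj (h.bma j))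
    have hv := TH2_bm_mul hΦc (h.bmb j)
    have h1 := h.actb j _ hu
    have h2 := h.acta j _ hv
    have h3 := TH2_add (μ := μ) h.measK h.boundK hu (h.bmb j) (TH2_bm_conj (h.bma j)) hv
    have h4 : ∫ x, (((Φ x : ℝ) : ℂ) * (starRingEnd ℂ) (a j x)) * a j x ∂μ =
        ((∫ x, Φ x * ‖a j x‖ ^ 2 ∂μ : ℝ) : ℂ) := by
      rw [← integral_complex_ofReal]
      apply integral_congr_ae
      refine Eventually.of_forall fun x => ?_
      simp only
      rw [mul_assoc, mul_comm ((starRingEnd ℂ) (a j x)), Complex.mul_conj, Complex.normSq_eq_norm_sq]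
      push_cast
      rfl
    have h5 : ∫ y, (starRingEnd ℂ) (b j y) * (((Φ y : ℝ) : ℂ) * b j y) ∂μ =
        ((∫ x, Φ x * ‖b j x‖ ^ 2 ∂μ : ℝ) : ℂ) := by
      rw [← integral_complex_ofReal]
      apply integral_congr_ae
      refine Eventually.of_forall fun x => ?_
      simp only
      rw [mul_comm, mul_assoc, Complex.mul_conj, Complex.normSq_eq_norm_sq]
      push_cast
      rfl
    have h6 : ∫ x, ∫ y, (((Φ x : ℝ) : ℂ) + ((Φ y : ℝ) : ℂ)) * ((Complex.exp (0 * Φ x) *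
        (starRingEnd ℂ) (a j x)) * K x y * (Complex.exp (0 * Φ y) * b j y)) ∂μ ∂μ =
        ∫ x, ∫ y, ((((Φ x : ℝ) : ℂ) * (starRingEnd ℂ) (a j x)) * K x y * b j y +
          (starRingEnd ℂ) (a j x) * K x y * (((Φ y : ℝ) : ℂ) * b j y)) ∂μ ∂μ := by
      apply integral_congr_ae
      refine Eventually.of_forall fun x => ?_
      apply integral_congr_ae
      refine Eventually.of_forall fun y => ?_
      simp only [zero_mul, Complex.exp_zero, one_mul]
      ring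
    rw [h6, h3, h1, h2, h4, h5]
    push_cast
    ring
  · intro x hx
    rw [hF2]
    refine (norm_sum_le _ _).trans ?_
    set e := Real.exp (x * L) with he
    have he2 : e * e = Real.exp (2 * x * L) := by
      rw [he, ← Real.exp_add]
      congr 1
      ring
    have he0 : 0 ≤ e := (Real.exp_pos _).le
    have hE := TH2_bm_exp hΦ (x : ℂ)
    have hEn : ∀ y, ‖Complex.exp ((x : ℂ) * Φ y)‖ ≤ e := by
      intro y
      rw [Complex.norm_exp]
      apply Real.exp_le_exp.mpr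
      have : ((x : ℂ) * Φ y).re = x * Φ y := by
        rw [← Complex.ofReal_mul, Complex.ofReal_re]
      rw [this]
      exact mul_le_mul_of_nonneg_left ((le_abs_self _).trans (hL y)) hx
    have hL2 : ∀ y, |Φ y| ≤ |L| := fun y => (hL y).trans (le_abs_self L)
    have hΦE : BM (fun y => ((Φ y : ℝ) : ℂ) * Complex.exp ((x : ℂ) * Φ y)) := TH2_bm_mul hΦc hE
    have hΦEn : ∀ y, ‖((Φ y : ℝ) : ℂ) * Complex.exp ((x : ℂ) * Φ y)‖ ≤ |L| * e := by
      intro y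
      rw [norm_mul, Complex.norm_real]
      exact mul_le_mul (hL2 y) (hEn y) (norm_nonneg _) (abs_nonneg _)
    have hΦ2E : BM (fun y => ((Φ y : ℝ) : ℂ) * (((Φ y : ℝ) : ℂ) * Complex.exp ((x : ℂ) * Φ y))) :=
      TH2_bm_mul hΦc hΦE
    have hΦ2En : ∀ y, ‖((Φ y : ℝ) : ℂ) * (((Φ y : ℝ) : ℂ) * Complex.exp ((x : ℂ) * Φ y))‖ ≤
        |L| * (|L| * e) := by
      intro y
      rw [norm_mul, Complex.norm_real]
      exact mul_le_mul (hL2 y) (hΦEn y) (norm_nonneg _) (abs_nonneg _)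
    have h2ΦE : BM (fun y => (2 : ℂ) * (((Φ y : ℝ) : ℂ) * Complex.exp ((x : ℂ) * Φ y))) :=
      TH2_bm_mul (TH2_bm_const 2) hΦE
    have h2ΦEn : ∀ y, ‖(2 : ℂ) * (((Φ y : ℝ) : ℂ) * Complex.exp ((x : ℂ) * Φ y))‖ ≤
        2 * (|L| * e) := by
      intro y
      rw [norm_mul, Complex.norm_ofNat]
      exact mul_le_mul_of_nonneg_left (hΦEn y) (by norm_num)
    have hj : ∀ j ∈ (Finset.univ : Finset (Fin N)),
        ‖∫ x', ∫ y, ((Φ x' + Φ y : ℝ) : ℂ) ^ 2 * ((Complex.exp ((x : ℂ) * Φ x') *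
          (starRingEnd ℂ) (a j x')) * K x' y * (Complex.exp ((x : ℂ) * Φ y) * b j y)) ∂μ ∂μ‖ ≤
          κ ^ 2 * (4 * L ^ 2 * Real.exp (2 * x * L)) := by
      intro j _
      have hu := TH2_bm_conj (h.bma j)
      have hv := h.bmb j
      have h3 := TH2_add3 (μ := μ) h.measK h.boundK (TH2_bm_mul hΦ2E hu) (TH2_bm_mul hE hv)
        (TH2_bm_mul h2ΦE hu) (TH2_bm_mul hΦE hv) (TH2_bm_mul hE hu) (TH2_bm_mul hΦ2E hv)
      have h6 : ∫ x', ∫ y, ((Φ x' + Φ y : ℝ) : ℂ) ^ 2 * ((Complex.exp ((x : ℂ) * Φ x') *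
          (starRingEnd ℂ) (a j x')) * K x' y * (Complex.exp ((x : ℂ) * Φ y) * b j y)) ∂μ ∂μ =
          ∫ x', ∫ y, (
            (((Φ x' : ℝ) : ℂ) * (((Φ x' : ℝ) : ℂ) * Complex.exp ((x : ℂ) * Φ x')) *
              (starRingEnd ℂ) (a j x')) * K x' y * (Complex.exp ((x : ℂ) * Φ y) * b j y) +
            ((2 : ℂ) * (((Φ x' : ℝ) : ℂ) * Complex.exp ((x : ℂ) * Φ x')) *
              (starRingEnd ℂ) (a j x')) * K x' y *
                ((((Φ y : ℝ) : ℂ) * Complex.exp ((x : ℂ) * Φ y)) * b j y) +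
            (Complex.exp ((x : ℂ) * Φ x') * (starRingEnd ℂ) (a j x')) * K x' y *
              ((((Φ y : ℝ) : ℂ) * (((Φ y : ℝ) : ℂ) * Complex.exp ((x : ℂ) * Φ y))) * b j y)) ∂μ ∂μ := by
        apply integral_congr_ae
        refine Eventually.of_forall fun x' => ?_
        apply integral_congr_ae
        refine Eventually.of_forall fun y => ?_
        push_cast
        ring
      rw [h6, h3]
      have b1 := TH2_bound h j hΦ2E hE (by positivity) he0 hΦ2En hEn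
      have b2 := TH2_bound h j h2ΦE hΦE (by positivity) (by positivity) h2ΦEn hΦEn
      have b3 := TH2_bound h j hE hΦ2E he0 (by positivity) hEn hΦ2En
      have hLL : |L| * |L| = L ^ 2 := by rw [← sq, sq_abs]
      refine ((norm_add₃_le).trans (add_le_add (add_le_add b1 b2) b3)).trans (le_of_eq ?_)
      rw [← he2]
      have : κ ^ 2 * (|L| * (|L| * e) * e) + κ ^ 2 * (2 * (|L| * e) * (|L| * e)) +
          κ ^ 2 * (e * (|L| * (|L| * e))) = κ ^ 2 * (4 * (|L| * |L|) * (e * e)) := by ring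
      rw [this, hLL]
    refine (Finset.sum_le_sum hj).trans (le_of_eq ?_)
    rw [Finset.sum_const, Finset.card_univ, Fintype.card_fin, nsmul_eq_mul]
    ring

end Pool.Agent.RS
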